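import Pool.Agent.Helper83.BT.IDN
import Pool.Agent.Helper81.BT.UINT
import Pool.Agent.Helper22.BT.MASS
import Pool.Agent.Helper22.BT.NECK

/-! Block BT-DEQ (helper67 for helper4): `deq`, `teq`. -/

namespace Pool.Helper4.BT
open MeasureTheory Metric Set Laplacian InnerProductSpace

namespace DEQ

theorem source_contDiff {u : E → ℝ} (hu : ContDiff ℝ 2 u) (lam : ℝ) (c : E) (ρ : ℝ) :
    ContDiff ℝ 1 (fun y => chi c ρ y * nl lam (u y)) :=
  (contDiff_chi c ρ (n := 1)).mul (contDiff_nl lam u hu)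

theorem source_support {u : E → ℝ} (lam : ℝ) (c : E) {ρ : ℝ} (hρ : 0 < ρ) :
    HasCompactSupport (fun y => chi c ρ y * nl lam (u y)) :=
  (hasCompactSupport_chi c hρ).mul_right

theorem ee_contDiff {u : E → ℝ} (hu : ContDiff ℝ 2 u) (lam : ℝ) (c : E) {ρ : ℝ} (hρ : 0 < ρ) :
    ContDiff ℝ 1 (ee u lam c ρ) := by
  unfold ee
  exact (hu.of_le (by norm_num)).sub
    (contDiff_N _ (source_contDiff hu lam c ρ) (source_support lam c hρ))

theorem continuous_Gp {u : E → ℝ} (hu : ContDiff ℝ 2 u) (lam : ℝ) :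
    Continuous fun x => Gp lam (u x) := by
  have := hu.continuous
  unfold Gp
  fun_prop

theorem continuous_nl {u : E → ℝ} (hu : ContDiff ℝ 2 u) (lam : ℝ) :
    Continuous fun x => nl lam (u x) := by
  have := hu.continuous
  unfold nl
  fun_prop

theorem continuous_fderiv_chi (c : E) (ρ : ℝ) : Continuous (fderiv ℝ (chi c ρ)) :=
  (contDiff_chi c ρ (n := 1)).continuous_fderiv (by norm_num)

theorem integrable_neck {u : E → ℝ} (hu : ContDiff ℝ 2 u) (lam : ℝ) (c : E) {ρ : ℝ}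
    (hρ : 0 < ρ) : Integrable fun x => |Gp lam (u x)| * ‖fderiv ℝ (chi c ρ) x‖ := by
  refine Continuous.integrable_of_hasCompactSupport ?_ ?_
  · exact (continuous_Gp hu lam).abs.mul (continuous_fderiv_chi c ρ).norm
  · exact ((hasCompactSupport_chi c hρ).fderiv (𝕜 := ℝ)).norm.mul_left

/-- the boundary terms of the Pohozaev identities -/
theorem neck_bound {u : E → ℝ} (hu : ContDiff ℝ 2 u) (lam : ℝ) (c : E) {ρ : ℝ} (hρ : 0 < ρ)
    (w : E → E) {D : ℝ} (hw : ∀ x, ‖x - c‖ ≤ 2 * ρ → ‖w x‖ ≤ D) :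
    |∫ x, Gp lam (u x) * fderiv ℝ (chi c ρ) x (w x)| ≤
      D * ∫ x, |Gp lam (u x)| * ‖fderiv ℝ (chi c ρ) x‖ := by
  rw [← integral_const_mul]
  refine (abs_integral_le_integral_abs).trans ?_
  refine integral_mono_of_nonneg (Filter.Eventually.of_forall fun x => abs_nonneg _)
    ((integrable_neck hu lam c hρ).const_mul D) (Filter.Eventually.of_forall fun x => ?_)
  change |Gp lam (u x) * fderiv ℝ (chi c ρ) x (w x)| ≤
    D * (|Gp lam (u x)| * ‖fderiv ℝ (chi c ρ) x‖)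
  by_cases hx : ‖x - c‖ ≤ 2 * ρ
  · rw [abs_mul]
    have h1 : |fderiv ℝ (chi c ρ) x (w x)| ≤ ‖fderiv ℝ (chi c ρ) x‖ * D := by
      refine ((fderiv ℝ (chi c ρ) x).le_opNorm (w x)).trans ?_
      exact mul_le_mul_of_nonneg_left (hw x hx) (norm_nonneg _)
    calc |Gp lam (u x)| * |fderiv ℝ (chi c ρ) x (w x)|
        ≤ |Gp lam (u x)| * (‖fderiv ℝ (chi c ρ) x‖ * D) :=
          mul_le_mul_of_nonneg_left h1 (abs_nonneg _)
      _ = _ := by ring
  · rw [fderiv_chi_eq_zero hρ (Or.inr (not_le.1 hx))]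
    simp

end DEQ

open DEQ

theorem deq : ∀ (k : ℕ) (Λ C CL : ℝ), ∃ C' : ℝ, 0 < C' ∧
    ∀ (τ : ℝ) (u : E → ℝ) (lam : ℝ) (c : E) (μ ρ T σ : ℝ) (I : Finset ℕ) (mu : ℕ → ℝ)
      (z : ℕ → E), BD k Λ C τ u lam c μ ρ T σ I mu z →
      ∀ L : ℝ, 0 ≤ L → L * ρ ≤ CL * T →
      (∀ x ∈ closedBall c (2 * ρ), |ee u lam c ρ x - ee u lam c ρ c| ≤ L * ‖x - c‖ ∧
        ‖fderiv ℝ (ee u lam c ρ) x‖ ≤ L) →
      |ee u lam c ρ c| ≤ CL * T →
      |2 * σ * ee u lam c ρ c + lam| ≤ C' * √τ * T := by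
  intro k Λ C CL
  obtain ⟨C1, hC1, hmass⟩ := mass k Λ C
  obtain ⟨C2, hC2, hneck⟩ := neck k Λ C
  have hI0 := I0_pos
  refine ⟨(5 * |CL| * C1 + 4 * C2 + |Λ| * C1) / I0, by positivity, ?_⟩
  intro τ u lam c μ ρ T σ I mu z hBD L hL hLρ he hec
  obtain ⟨-, hm2, hm3, hm4⟩ := hmass τ u lam c μ ρ T σ I mu z hBD
  have hnk := hneck τ u lam c μ ρ T σ I mu z hBD
  have hρ := hBD.hρ.1
  have hμ := hBD.hμ
  have hτ0 := hBD.hτ.1
  have hτ1 := hBD.hτ.2
  have hT := hBD.hT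
  have hT0 : 0 < T := by linarith
  have hu := hBD.hu
  have hsτ : τ ≤ √τ := by
    have h1 : √τ ≤ 1 := Real.sqrt_le_one.mpr hτ1
    have h2 : 0 ≤ √τ := Real.sqrt_nonneg τ
    calc τ = √τ * √τ := (Real.mul_self_sqrt hτ0.le).symm
      _ ≤ √τ * 1 := mul_le_mul_of_nonneg_left h1 h2
      _ = √τ := mul_one _
  have hs0 : 0 ≤ √τ := Real.sqrt_nonneg τ
  -- the identity
  have hid := idn u hu lam c c ρ hρ
  set e : E → ℝ := ee u lam c ρ with hedef
  set f : E → ℝ := fun x => chi c ρ x * nl lam (u x) with hf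
  have hfc : Continuous f := (source_contDiff hu lam c ρ).continuous
  have hfs : HasCompactSupport f := source_support lam c hρ
  have heC : ContDiff ℝ 1 e := ee_contDiff hu lam c hρ
  have heC' : Continuous (fderiv ℝ e) := heC.continuous_fderiv (by norm_num)
  have hint1 : Integrable fun x => f x * (2 * e c) :=
    (hfc.integrable_of_hasCompactSupport hfs).mul_const _
  have hcont2 : Continuous fun x => f x * (fderiv ℝ e x (x - c) + 2 * (e x - e c)) := by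
    have h1 := heC.continuous
    have h2 : Continuous fun x => fderiv ℝ e x (x - c) := heC'.clm_apply (by fun_prop)
    fun_prop
  have hint2 : Integrable fun x => f x * (fderiv ℝ e x (x - c) + 2 * (e x - e c)) :=
    hcont2.integrable_of_hasCompactSupport hfs.mul_right
  have hsplit : ∫ x, chi c ρ x * nl lam (u x) * (fderiv ℝ e x (x - c) + 2 * e x) =
      (∫ x, f x) * (2 * e c) + ∫ x, f x * (fderiv ℝ e x (x - c) + 2 * (e x - e c)) := by
    rw [← integral_mul_const, ← integral_add hint1 hint2]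
    refine integral_congr_ae (Filter.Eventually.of_forall fun x => ?_)
    simp only [hf]
    ring
  rw [hsplit] at hid
  -- the bound for the second term
  have hB1 : |∫ x, f x * (fderiv ℝ e x (x - c) + 2 * (e x - e c))| ≤
      3 * L * (C1 * √τ * ρ * μ ^ 2) := by
    refine (abs_integral_le_integral_abs).trans ?_
    have h0 : ∀ x, x ∉ closedBall c (2 * ρ) →
        |f x * (fderiv ℝ e x (x - c) + 2 * (e x - e c))| = 0 := by
      intro x hx
      rw [mem_closedBall, dist_eq_norm, not_le] at hx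
      simp only [hf]
      rw [chi_eq_zero hρ hx.le]
      simp
    rw [← setIntegral_eq_integral_of_forall_compl_eq_zero h0]
    have hcn : Continuous fun x => |nl lam (u x)| * ‖x - c‖ := by
      have := continuous_nl hu lam
      fun_prop
    calc ∫ x in closedBall c (2 * ρ), |f x * (fderiv ℝ e x (x - c) + 2 * (e x - e c))|
        ≤ ∫ x in closedBall c (2 * ρ), 3 * L * (|nl lam (u x)| * ‖x - c‖) := by
          refine setIntegral_mono_on hint2.abs.integrableOn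
            ((hcn.continuousOn.integrableOn_compact (isCompact_closedBall c (2 * ρ))).const_mul _)
            measurableSet_closedBall fun x hx => ?_
          obtain ⟨h1, h2⟩ := he x hx
          have h3 : |fderiv ℝ e x (x - c) + 2 * (e x - e c)| ≤ 3 * L * ‖x - c‖ := by
            have h4 : |fderiv ℝ e x (x - c)| ≤ L * ‖x - c‖ := by
              refine ((fderiv ℝ e x).le_opNorm (x - c)).trans ?_
              exact mul_le_mul_of_nonneg_right h2 (norm_nonneg _)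
            calc |fderiv ℝ e x (x - c) + 2 * (e x - e c)|
                ≤ |fderiv ℝ e x (x - c)| + |2 * (e x - e c)| := abs_add_le _ _
              _ ≤ L * ‖x - c‖ + 2 * (L * ‖x - c‖) := by
                  rw [abs_mul, abs_two]
                  gcongr
              _ = _ := by ring
          have h5 : |f x| ≤ |nl lam (u x)| := by
            simp only [hf]
            rw [abs_mul, abs_of_nonneg (chi_nonneg c ρ x)]
            exact mul_le_of_le_one_left (abs_nonneg _) (chi_le_one c ρ x)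
          rw [abs_mul]
          calc |f x| * |fderiv ℝ e x (x - c) + 2 * (e x - e c)|
              ≤ |nl lam (u x)| * (3 * L * ‖x - c‖) := by gcongr
            _ = _ := by ring
      _ = 3 * L * ∫ x in closedBall c (2 * ρ), |nl lam (u x)| * ‖x - c‖ :=
          integral_const_mul _ _
      _ ≤ 3 * L * (C1 * √τ * ρ * μ ^ 2) := by gcongr
  -- the neck term
  have hB2 : |∫ x, Gp lam (u x) * fderiv ℝ (chi c ρ) x (x - c)| ≤
      2 * ρ * (C2 * (ρ ^ 5 * T ^ 3 + μ ^ 6 / ρ ^ 7)) := by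
    refine (neck_bound hu lam c hρ (fun x => x - c) (D := 2 * ρ) (fun x hx => hx)).trans ?_
    gcongr
  have hμ6 : μ ^ 6 / ρ ^ 6 ≤ τ * T * μ ^ 2 := by
    rw [div_le_iff₀ (by positivity)]
    have := hBD.r3
    nlinarith [mul_le_mul_of_nonneg_right this (sq_nonneg μ)]
  have hρ6 : ρ ^ 6 * T ^ 3 ≤ τ * T * μ ^ 2 := by
    have := hBD.r1
    nlinarith [mul_le_mul_of_nonneg_right this hT0.le]
  have hB2' : 2 * ρ * (C2 * (ρ ^ 5 * T ^ 3 + μ ^ 6 / ρ ^ 7)) ≤ 4 * C2 * (√τ * T * μ ^ 2) := by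
    have h1 : 2 * ρ * (C2 * (ρ ^ 5 * T ^ 3 + μ ^ 6 / ρ ^ 7)) =
        2 * C2 * (ρ ^ 6 * T ^ 3 + μ ^ 6 / ρ ^ 6) := by
      field_simp
    rw [h1]
    have h2 : ρ ^ 6 * T ^ 3 + μ ^ 6 / ρ ^ 6 ≤ 2 * (τ * T * μ ^ 2) := by linarith
    have h3 : τ * T * μ ^ 2 ≤ √τ * T * μ ^ 2 := by gcongr
    calc 2 * C2 * (ρ ^ 6 * T ^ 3 + μ ^ 6 / ρ ^ 6) ≤ 2 * C2 * (2 * (√τ * T * μ ^ 2)) := by
          gcongr
          linarith
      _ = _ := by ring
  have hCL : 0 ≤ CL := by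
    have h1 : 0 ≤ CL * T := (abs_nonneg _).trans hec
    by_contra hneg
    have : CL * T < 0 := mul_neg_of_neg_of_pos (not_le.1 hneg) hT0
    linarith
  have hΛ : 0 ≤ Λ := hBD.hlam.1.trans hBD.hlam.2
  have hσ : σ * σ = 1 := by rcases hBD.hσ with h | h <;> rw [h] <;> norm_num
  have hB1' : 3 * L * (C1 * √τ * ρ * μ ^ 2) ≤ 3 * CL * C1 * (√τ * T * μ ^ 2) := by
    calc 3 * L * (C1 * √τ * ρ * μ ^ 2) = 3 * (L * ρ) * C1 * √τ * μ ^ 2 := by ring
      _ ≤ 3 * (CL * T) * C1 * √τ * μ ^ 2 := by gcongr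
      _ = _ := by ring
  have hB3 : |2 * e c * ((∫ x, f x) - σ * I0 * μ ^ 2)| ≤ 2 * CL * C1 * (√τ * T * μ ^ 2) := by
    rw [abs_mul, abs_mul, abs_two]
    calc 2 * |e c| * |(∫ x, f x) - σ * I0 * μ ^ 2| ≤ 2 * (CL * T) * (C1 * √τ * μ ^ 2) := by
          gcongr
      _ = _ := by ring
  have hB4 : |lam * ((∫ x, chi c ρ x * u x ^ 2) - I0 * μ ^ 2)| ≤
      Λ * C1 * (√τ * T * μ ^ 2) := by
    rw [abs_mul, abs_of_nonneg hBD.hlam.1]
    have h1 : √τ * μ ^ 2 ≤ √τ * T * μ ^ 2 := by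
      calc √τ * μ ^ 2 = √τ * 1 * μ ^ 2 := by ring
        _ ≤ √τ * T * μ ^ 2 := by gcongr
    calc lam * |(∫ x, chi c ρ x * u x ^ 2) - I0 * μ ^ 2| ≤ Λ * (C1 * √τ * μ ^ 2) := by
          gcongr
          exact hBD.hlam.2
      _ = Λ * C1 * (√τ * μ ^ 2) := by ring
      _ ≤ _ := by gcongr
  have hkey : (2 * σ * e c + lam) * (I0 * μ ^ 2) =
      -(2 * e c * ((∫ x, f x) - σ * I0 * μ ^ 2))
      - (∫ x, f x * (fderiv ℝ e x (x - c) + 2 * (e x - e c)))
      - (∫ x, Gp lam (u x) * fderiv ℝ (chi c ρ) x (x - c))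
      - lam * ((∫ x, chi c ρ x * u x ^ 2) - I0 * μ ^ 2) := by
    linarith
  have hfin : |(2 * σ * e c + lam) * (I0 * μ ^ 2)| ≤
      (5 * |CL| * C1 + 4 * C2 + |Λ| * C1) * (√τ * T * μ ^ 2) := by
    rw [hkey, abs_of_nonneg hCL, abs_of_nonneg hΛ]
    have h1 := abs_le.1 hB3
    have h2 := abs_le.1 hB1
    have h3 := abs_le.1 hB2
    have h4 := abs_le.1 hB4
    rw [abs_le]
    constructor <;> nlinarith [h1.1, h1.2, h2.1, h2.2, h3.1, h3.2, h4.1, h4.2, hB1', hB2']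
  rw [abs_mul, abs_of_pos (show 0 < I0 * μ ^ 2 by positivity)] at hfin
  have hμ2 : 0 < μ ^ 2 := by positivity
  have h5 : |2 * σ * e c + lam| * I0 ≤ (5 * |CL| * C1 + 4 * C2 + |Λ| * C1) * (√τ * T) := by
    refine le_of_mul_le_mul_right ?_ hμ2
    calc |2 * σ * e c + lam| * I0 * μ ^ 2 = |2 * σ * e c + lam| * (I0 * μ ^ 2) := by ring
      _ ≤ _ := hfin
      _ = _ := by ring
  rw [← le_div_iff₀ hI0] at h5
  refine h5.trans (le_of_eq ?_)
  ring

theorem teq : ∀ (k : ℕ) (Λ C : ℝ), ∃ C' : ℝ, 0 < C' ∧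
    ∀ (τ : ℝ) (u : E → ℝ) (lam : ℝ) (c : E) (μ ρ T σ : ℝ) (I : Finset ℕ) (mu : ℕ → ℝ)
      (z : ℕ → E), BD k Λ C τ u lam c μ ρ T σ I mu z →
      ∀ (D : ℝ) (v : E), 0 < D → ‖v‖ ≤ D → D * ρ ^ 5 * T ^ 2 ≤ τ * μ ^ 2 →
      D * μ ^ 4 ≤ τ * T * ρ ^ 7 →
      |∫ x, chi c ρ x * nl lam (u x) * fderiv ℝ (ee u lam c ρ) x v| ≤ C' * τ * T * μ ^ 2 := by
  intro k Λ C
  obtain ⟨C2, hC2, hneck⟩ := neck k Λ C
  refine ⟨2 * C2, by positivity, ?_⟩
  intro τ u lam c μ ρ T σ I mu z hBD D v hD hv h1 h2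
  have hnk := hneck τ u lam c μ ρ T σ I mu z hBD
  have hρ := hBD.hρ.1
  have hμ := hBD.hμ
  have hT0 : 0 < T := lt_of_lt_of_le one_pos hBD.hT
  rw [idn' u hBD.hu lam c v ρ hρ, abs_neg]
  refine (neck_bound hBD.hu lam c hρ (fun _ => v) (D := D) (fun x _ => hv)).trans ?_
  have h3 : D * (ρ ^ 5 * T ^ 3) ≤ τ * T * μ ^ 2 := by
    nlinarith [mul_le_mul_of_nonneg_right h1 hT0.le]
  have h4 : D * (μ ^ 6 / ρ ^ 7) ≤ τ * T * μ ^ 2 := by
    rw [← mul_div_assoc, div_le_iff₀ (by positivity)]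
    nlinarith [mul_le_mul_of_nonneg_right h2 (sq_nonneg μ)]
  calc D * ∫ x, |Gp lam (u x)| * ‖fderiv ℝ (chi c ρ) x‖
      ≤ D * (C2 * (ρ ^ 5 * T ^ 3 + μ ^ 6 / ρ ^ 7)) := by gcongr
    _ = C2 * (D * (ρ ^ 5 * T ^ 3) + D * (μ ^ 6 / ρ ^ 7)) := by ring
    _ ≤ C2 * (τ * T * μ ^ 2 + τ * T * μ ^ 2) := by gcongr
    _ = 2 * C2 * τ * T * μ ^ 2 := by ring

end Pool.Helper4.BT
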