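import Pool.Agent.Helper4.BT.Defs
import Pool.Agent.Helper7.BT.JJa

/-! Block BT-FE1d (helper67 for helper4): `fe1_d`, and common facts on `DD`, `tt`. -/

namespace Pool.Helper4.BT
open MeasureTheory Metric Set Laplacian InnerProductSpace

namespace FEaux

theorem DD_sq (mu : ℕ → ℝ) (z : ℕ → E) : DD mu z ^ 2 = mu 0 ^ 2 + ‖z 0 - z 1‖ ^ 2 := by
  unfold DD
  exact Real.sq_sqrt (by positivity)

theorem A0_z1 (mu : ℕ → ℝ) (z : ℕ → E) : A (mu 0) (z 0) (z 1) = DD mu z ^ 2 := by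
  rw [DD_sq, A, norm_sub_rev]

theorem DD_nonneg (mu : ℕ → ℝ) (z : ℕ → E) : 0 ≤ DD mu z := Real.sqrt_nonneg _

theorem DD_pos {mu : ℕ → ℝ} (z : ℕ → E) (h : 0 < mu 0) : 0 < DD mu z :=
  Real.sqrt_pos.2 (by positivity)

theorem mu0_le_DD {mu : ℕ → ℝ} (z : ℕ → E) (_ : 0 < mu 0) : mu 0 ≤ DD mu z := by
  refine Real.le_sqrt_of_sq_le ?_
  nlinarith [sq_nonneg ‖z 0 - z 1‖]

theorem dist_le_DD (mu : ℕ → ℝ) (z : ℕ → E) : ‖z 0 - z 1‖ ≤ DD mu z := by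
  refine Real.le_sqrt_of_sq_le ?_
  nlinarith [sq_nonneg (mu 0)]

theorem tt_eq (mu : ℕ → ℝ) (z : ℕ → E) : tt mu z = 24 * mu 0 ^ 2 / DD mu z ^ 4 := by
  unfold tt U
  rw [A0_z1]
  ring

theorem tt_nonneg (mu : ℕ → ℝ) (z : ℕ → E) : 0 ≤ tt mu z := by
  rw [tt_eq]
  positivity

theorem tt_mul_DD_sq {mu : ℕ → ℝ} (z : ℕ → E) (h : 0 < mu 0) :
    tt mu z * DD mu z ^ 2 = 24 * (mu 0 / DD mu z) ^ 2 := by
  have := DD_pos z h
  rw [tt_eq]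
  field_simp

theorem ratio_le_one {mu : ℕ → ℝ} (z : ℕ → E) (h : 0 < mu 0) : (mu 0 / DD mu z) ^ 2 ≤ 1 := by
  have h1 := DD_pos z h
  have h2 : mu 0 / DD mu z ≤ 1 := (div_le_one h1).2 (mu0_le_DD z h)
  have h3 : 0 ≤ mu 0 / DD mu z := by positivity
  exact pow_le_one₀ h3 h2

theorem tt_mul_DD_sq_le {mu : ℕ → ℝ} (z : ℕ → E) (h : 0 < mu 0) :
    tt mu z * DD mu z ^ 2 ≤ 24 := by
  rw [tt_mul_DD_sq z h]
  linarith [ratio_le_one z h]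

theorem A0_lower {mu : ℕ → ℝ} {z : ℕ → E} {y : E} (hy : ‖y - z 1‖ ≤ DD mu z / 32) :
    (31 / 32 * DD mu z) ^ 2 ≤ A (mu 0) (z 0) y := by
  have hD := DD_nonneg mu z
  have hsq := DD_sq mu z
  have hs := dist_le_DD mu z
  have htri : ‖z 0 - z 1‖ ≤ ‖y - z 0‖ + ‖y - z 1‖ := by
    calc ‖z 0 - z 1‖ = ‖(y - z 1) - (y - z 0)‖ := by congr 1; abel
      _ ≤ ‖y - z 1‖ + ‖y - z 0‖ := norm_sub_le _ _
      _ = _ := add_comm _ _
  have h0 := norm_nonneg (y - z 0)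
  have h1 := norm_nonneg (z 0 - z 1)
  unfold A
  rcases le_or_gt (DD mu z / 32) ‖z 0 - z 1‖ with hc | hc
  · have h2 : (‖z 0 - z 1‖ - DD mu z / 32) ^ 2 ≤ ‖y - z 0‖ ^ 2 :=
      pow_le_pow_left₀ (by linarith) (by linarith) 2
    nlinarith
  · have h2 : ‖z 0 - z 1‖ ^ 2 ≤ (DD mu z / 32) ^ 2 := pow_le_pow_left₀ h1 hc.le 2
    nlinarith [sq_nonneg ‖y - z 0‖]

theorem U0_upper {mu : ℕ → ℝ} {z : ℕ → E} {y : E} (h0 : 0 < mu 0)
    (hy : ‖y - z 1‖ ≤ DD mu z / 32) : U (mu 0) (z 0) y ≤ 6 / 5 * tt mu z := by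
  have hD := DD_pos z h0
  have hA := A0_lower hy
  have hA2 : ((31 / 32 * DD mu z) ^ 2) ^ 2 ≤ A (mu 0) (z 0) y ^ 2 :=
    pow_le_pow_left₀ (by positivity) hA 2
  rw [tt_eq]
  unfold U
  calc 24 * mu 0 ^ 2 / A (mu 0) (z 0) y ^ 2
      ≤ 24 * mu 0 ^ 2 / ((31 / 32 * DD mu z) ^ 2) ^ 2 := by gcongr
    _ = ((32 / 31) ^ 4) * (24 * mu 0 ^ 2 / DD mu z ^ 4) := by
        field_simp
    _ ≤ 6 / 5 * (24 * mu 0 ^ 2 / DD mu z ^ 4) := by
        gcongr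
        norm_num

end FEaux

open FEaux

theorem fe1_d : ∀ (k : ℕ) (Λ R C3 : ℝ), ∃ C : ℝ, 0 < C ∧ ∀ τ : ℝ, 0 < τ → τ ≤ 1 / 64 →
    ∀ (ω : ℝ) (p : E) (u : E → ℝ) (lam : ℝ) (mu : ℕ → ℝ) (z : ℕ → E)
      (sg : ℕ → ℝ) (ρ : ℝ), Conf k Λ R C3 τ ω p u lam mu z sg → Rho1 k τ mu z ρ →
      ∀ x ∈ closedBall (z 1) (2 * ρ),
      J 4 ((closedBall (z 1) (2 * ρ)).indicator (fun y => U (mu 0) (z 0) y ^ 2)) x
        ≤ ENNReal.ofReal (C * τ * tt mu z) ∧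
      J 5 ((closedBall (z 1) (2 * ρ)).indicator (fun y => U (mu 0) (z 0) y ^ 2)) x
        ≤ ENNReal.ofReal (C * τ * tt mu z / DD mu z) := by
  intro k Λ R C3
  obtain ⟨Cb, hCb, hJ⟩ := J_ball
  refine ⟨192 * Cb, by positivity, ?_⟩
  intro τ hτ hτ1 ω p u lam mu z sg ρ hconf hρ1 x hx
  have hmu0 : 0 < mu 0 := hconf.hmu 0 (by have := hconf.hk; omega)
  have hD := DD_pos z hmu0
  have hρ := hρ1.pos
  have hρD := hρ1.le
  have ht := tt_nonneg mu z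
  have htD := tt_mul_DD_sq_le z hmu0
  have hmono : ∀ m, J m ((closedBall (z 1) (2 * ρ)).indicator
      (fun y => U (mu 0) (z 0) y ^ 2)) x ≤
      J m ((closedBall (z 1) (2 * ρ)).indicator (fun _ => 2 * tt mu z ^ 2)) x := by
    intro m
    refine J_mono (fun y => ?_) x
    by_cases hy : y ∈ closedBall (z 1) (2 * ρ)
    · rw [indicator_of_mem hy, indicator_of_mem hy]
      rw [mem_closedBall, dist_eq_norm] at hy
      have h1 : ‖y - z 1‖ ≤ DD mu z / 32 := by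
        refine hy.trans ?_
        nlinarith
      have h2 := U0_upper hmu0 h1
      have h3 : 0 ≤ U (mu 0) (z 0) y := by unfold U; positivity
      calc U (mu 0) (z 0) y ^ 2 ≤ (6 / 5 * tt mu z) ^ 2 := pow_le_pow_left₀ h3 h2 2
        _ ≤ 2 * tt mu z ^ 2 := by nlinarith [sq_nonneg (tt mu z)]
    · rw [indicator_of_notMem hy, indicator_of_notMem hy]
  constructor
  · refine (hmono 4).trans ((hJ 4 x (z 1) (2 * ρ) (2 * tt mu z ^ 2) (Or.inl rfl) (by positivity)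
      (by positivity)).trans (ENNReal.ofReal_le_ofReal ?_))
    have h1 : tt mu z * ρ ^ 2 ≤ 24 * τ ^ 2 := by
      calc tt mu z * ρ ^ 2 ≤ tt mu z * (τ * DD mu z) ^ 2 := by gcongr
        _ = τ ^ 2 * (tt mu z * DD mu z ^ 2) := by ring
        _ ≤ τ ^ 2 * 24 := by gcongr
        _ = _ := by ring
    calc Cb * (2 * tt mu z ^ 2) * (2 * ρ) ^ (6 - 4)
        = 8 * Cb * tt mu z * (tt mu z * ρ ^ 2) := by norm_num; ring
      _ ≤ 8 * Cb * tt mu z * (24 * τ ^ 2) := by gcongr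
      _ = 192 * Cb * τ * tt mu z * τ := by ring
      _ ≤ 192 * Cb * τ * tt mu z * 1 := by gcongr; linarith
      _ = _ := by ring
  · refine (hmono 5).trans ((hJ 5 x (z 1) (2 * ρ) (2 * tt mu z ^ 2) (Or.inr rfl) (by positivity)
      (by positivity)).trans (ENNReal.ofReal_le_ofReal ?_))
    have h1 : tt mu z * ρ ≤ 24 * τ / DD mu z := by
      rw [le_div_iff₀ hD]
      calc tt mu z * ρ * DD mu z ≤ tt mu z * (τ * DD mu z) * DD mu z := by gcongr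
        _ = τ * (tt mu z * DD mu z ^ 2) := by ring
        _ ≤ τ * 24 := by gcongr
        _ = _ := by ring
    calc Cb * (2 * tt mu z ^ 2) * (2 * ρ) ^ (6 - 5)
        = 4 * Cb * tt mu z * (tt mu z * ρ) := by norm_num; ring
      _ ≤ 4 * Cb * tt mu z * (24 * τ / DD mu z) := by gcongr
      _ = 96 * Cb * τ * tt mu z / DD mu z := by ring
      _ ≤ 192 * Cb * τ * tt mu z / DD mu z := by gcongr; norm_num

end Pool.Helper4.BT
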